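import Pool.Agent.H3.L17.BSD
import Pool.Agent.H1.OB.F17
import Pool.Agent.H1.OB.GrF
import Pool.Agent.H1.OB.Law0
import Pool.Graph.R_pool_sql_team_seeded_63374d34.N969.Den.Root17
import Pool.Graph.R_seed8.Y948.CQ.C2

/-!
# The product of Birch and Swinnerton-Dyer for one fifth of all quadratic twists of a curve of conductor `17`

`E : y² = x³ - 91 x - 330 = (x + 5) (x + 6) (x - 11)` is an elliptic curve of conductor `17` without complex
multiplication, `E_d : y² = x³ - 91 d² x - 330 d³`, `d` squarefree, of either sign, are its quadratic twists. We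
consider the twists with root number `+ 1` (`RootPlus d`) and a nondegenerate symmetric matrix of quadratic residue
symbols (`Good d`), `d ≠ 1`. Their proportion is exactly `c / 2` among all squarefree integers and exactly `c` among
those with root number `+ 1`, `c = ∏_{i ≥ 0} (1 - 2^{-(2 i + 1)})`, `0.4194 < c < 0.4195` (in two orderings).

Let `N_p` be the number of points modulo `p` and `P_d(x) = ∏_{p ≤ x, p ∤ 2Δ} N_p / p`. Q1 asks whether
`P_d(x) ∼ A (log x)^r`, `r = rank E_d(ℚ)`, `A > 0`. We prove, for each of these `d`, without any hypothesis: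

1. `r = 0`, the incomplete `L`-series has an entire continuation `F` and `F(1) ≠ 0`. Let `T = √2 / |F(1)|`.
2. The exponent of Q1 is the only possible one: if `P_d(x) / (log x)^ρ → A ≠ 0` then `ρ = r`, `A = T`, and `F` has no
   zeros with `Re s > 1`. Always `limsup P_d(x) / (log x)^r ≥ T`.
3. Q1 holds with rotated weights: for every `γ > π/2` the product of the `(N_p / p)^{w(log p / X)}`, over ALL primes
   `p ∤ 2Δ`, `w(u) = e^{iγu} / Γ(1 + u)`, divided by `X^r`, converges to `√2 / F(1)`.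
4. The following are equivalent: `F` has no zeros with `Re s > 1` (the Riemann hypothesis for `E_d`); Q1 holds outside
   a set of cut-offs of finite logarithmic measure, with few large exceptions; an asymptotic formula with any
   exponent and constant holds on a set of cut-offs of positive upper logarithmic density, with few large exceptions for a
   sequence; Q1 holds with the weights `(1 - log p / log x)^k` for all `k > 0`; the same with any exponent, for one `k > 0`.

So for one fifth of all quadratic twists of `E` the rank is the right exponent in Q1, and Q1 outside a small set is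
equivalent to the Riemann hypothesis for `E_d`; with the rotated weights it is a theorem, with the constant of Goldfeld.

Proof. The value at `1`, the rank and the proportion are as in the hand-in `AllTwistsConductor17` (for
`MP_696deb_nt`). No newform is assumed to belong to `E_d`: the theorem of Rankin and Selberg and the growth of `F` are
proved for all twists from the newform of level `17` and its translates by rational numbers (`Pool.Agent.H1.OB`), and
the laws of earlier runs for the product (for curves with a newform) are applied. The rotated law with its constant is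
proved from the law for prime powers (earlier runs) and the theorem of Rankin and Selberg; the difference is
`∑ (a_p² - 2p) / (2p²) (w(2u) - w(u))`, `u = log p / X`, which tends to `log 2 / 2`.
-/

set_option autoImplicit false

namespace Pool.Agent.Results.MP_3283e1_nt.TwistsConductor17

open Filter Finset Topology
open scoped Classical

/-! ### The product of Birch and Swinnerton-Dyer -/

/-- `N_p`: the number of points of `y² = x³ + a x + b` modulo `p`, with the point at infinity -/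
noncomputable def numPoints (a b : ℤ) (p : ℕ) : ℕ :=
  Nat.card {q : ZMod p × ZMod p // q.2 ^ 2 = q.1 ^ 3 + (a : ZMod p) * q.1 + (b : ZMod p)} + 1

/-- `p` is a prime that does not divide `2Δ`, `Δ = -4 a³ - 27 b²` -/
def GoodPrime (a b : ℤ) (p : ℕ) : Prop :=
  p.Prime ∧ ¬ ((p : ℤ) ∣ 2 * (-4 * a ^ 3 - 27 * b ^ 2))

/-- the product of Birch and Swinnerton-Dyer, `P(x) = ∏_{p ≤ x, p ∤ 2Δ} N_p / p` -/
noncomputable def P (a b : ℤ) (x : ℝ) : ℝ :=
  ∏ p ∈ (Finset.range (⌊x⌋₊ + 1)).filter (GoodPrime a b), ((numPoints a b p : ℝ) / p)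

/-- the product with the weights of Riesz, `∏_{p ≤ x, p ∤ 2Δ} (N_p / p) ^ ((1 - log p / log x) ^ k)` -/
noncomputable def PRiesz (a b : ℤ) (k x : ℝ) : ℝ :=
  ∏ p ∈ (Finset.range (⌊x⌋₊ + 1)).filter (GoodPrime a b),
    ((numPoints a b p : ℝ) / p) ^ ((1 - Real.log p / Real.log x) ^ k)

/-- the terms `log (N_p / p) e^{iγu} / Γ(1 + u)`, `u = log p / X` -/
noncomputable def rotTerm (a b : ℤ) (γ X : ℝ) (p : {p : ℕ // GoodPrime a b p}) : ℂ :=
  ((Real.log ((numPoints a b p : ℝ) / (p : ℕ)) : ℝ) : ℂ) *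
    (Complex.exp ((γ * (Real.log (p : ℕ) / X) : ℝ) * Complex.I) /
      ((Real.Gamma (1 + Real.log (p : ℕ) / X) : ℝ) : ℂ))

/-- the product with rotated weights over all primes `p ∤ 2Δ`, as the exponential of the sum of the `rotTerm` -/
noncomputable def PRot (a b : ℤ) (γ X : ℝ) : ℂ := Complex.exp (∑' p, rotTerm a b γ X p)

/-- `F` is an entire function which for `Re s > 3/2` is the incomplete `L`-series
`∏_{p ∤ 2Δ} (1 - a_p p^{-s} + p^{1-2s})⁻¹`, `a_p = p + 1 - N_p`, of `y² = x³ + a x + b` -/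
def IsLSeries (a b : ℤ) (F : ℂ → ℂ) : Prop :=
  Differentiable ℂ F ∧ ∀ s : ℂ, (3 : ℝ) / 2 < s.re →
    HasProd (fun p : ℕ => if GoodPrime a b p then
      (1 - ((p : ℂ) + 1 - (numPoints a b p : ℂ)) * (p : ℂ) ^ (-s) + (p : ℂ) ^ (1 - 2 * s))⁻¹ else 1)
      (F s)

/-- the rank of the group of the rational points of `y² = x³ + a x + b` -/
noncomputable def rank (a b : ℤ) : ℕ :=
  Module.finrank ℤ
    (WeierstrassCurve.Affine.Point
      (WeierstrassCurve.toAffine
        ({ a₁ := 0, a₂ := 0, a₃ := 0, a₄ := (a : ℚ), a₆ := (b : ℚ) } :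
          WeierstrassCurve ℚ)))

/-- `F` has no zeros with `Re s > 1` -/
def NoZeros (F : ℂ → ℂ) : Prop := ∀ s : ℂ, 1 < s.re → F s ≠ 0

/-- the constant `T = √2 / |F(1)|` of Goldfeld for order zero -/
noncomputable def T (F : ℂ → ℂ) : ℝ := √2 / ‖F 1‖

/-- the number of the elements `n` of `S` with `1 ≤ n ≤ M` -/
noncomputable def count (S : Set ℕ) (M : ℕ) : ℕ := {n : ℕ | 1 ≤ n ∧ n ≤ M ∧ n ∈ S}.ncard

/-- the sum of the `1/n` over the elements `n` of `S` with `1 ≤ n ≤ M` -/
noncomputable def logSum (S : Set ℕ) (M : ℕ) : ℝ := ∑ n ∈ (Finset.Icc 1 M).filter (· ∈ S), (1 : ℝ) / n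

/-- for every `ε > 0` there is a `δ > 0` such that for all large `M` the inequality `|log P(n)| > n^ε` holds for at
most `M^(1-δ)` of the numbers `n ≤ M` -/
def FewLarge (a b : ℤ) : Prop := ∀ ε : ℝ, 0 < ε → ∃ δ : ℝ, 0 < δ ∧ ∀ᶠ M : ℕ in atTop,
  (count {n : ℕ | (n : ℝ) ^ ε < |Real.log (P a b n)|} M : ℝ) ≤ (M : ℝ) ^ (1 - δ)

/-- for every `ε > 0` there is a `δ > 0` such that for infinitely many `M` the inequality `log P(n) > n^ε` holds for
at most `M^(1-δ)` of the numbers `n ≤ M` -/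
def SometimesFewLarge (a b : ℤ) : Prop := ∀ ε : ℝ, 0 < ε → ∃ δ : ℝ, 0 < δ ∧ ∃ᶠ M : ℕ in atTop,
  (count {n : ℕ | (n : ℝ) ^ ε < Real.log (P a b n)} M : ℝ) ≤ (M : ℝ) ^ (1 - δ)

/-- for every `ε > 0` the inequality `|P(n)/(log n)^ρ - A| ≤ ε` holds for all `n` outside a set of finite logarithmic
measure -/
def AlmostAlways (a b : ℤ) (ρ A : ℝ) : Prop := ∀ ε : ℝ, 0 < ε → Summable fun n : ℕ =>
  if ε < |P a b n / Real.log n ^ ρ - A| then (1 : ℝ) / n else 0

/-- for every `ε > 0` the inequality `|P(n)/(log n)^ρ - A| ≤ ε` holds for all `n` in a set of positive upper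
logarithmic density -/
def OnPositiveDensity (a b : ℤ) (ρ A : ℝ) : Prop := ∀ ε : ℝ, 0 < ε → ∃ η : ℝ, 0 < η ∧ ∃ᶠ M : ℕ in atTop,
  η * Real.log M ≤ logSum {n : ℕ | |P a b n / Real.log n ^ ρ - A| ≤ ε} M

/-! ### The family -/

/-- the condition for the root number `+ 1` -/
def RootPlus (d : ℤ) : Prop := (0 < d ∧ jacobiSym d 17 = 1) ∨ (d < 0 ∧ jacobiSym d 17 ≠ 1)

/-- the discriminant of `ℚ(√d)` -/
def disc (d : ℤ) : ℤ := if d % 4 = 1 then d else 4 * d

/-- the prime discriminants: `D` is the product of the `st D p` over the primes `p ∣ D` -/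
def st (D : ℤ) (p : ℕ) : ℤ :=
  if p = 2 then (if D % 16 = 12 then -4 else if D % 32 = 8 then 8 else -8)
  else if p % 4 = 1 then p else -p

/-- the Kronecker symbol `(st D q / p)` for `p ≠ q`, written additively -/
def lg (D : ℤ) (q p : ℕ) : ZMod 2 :=
  if p = 2 then (if st D q % 8 = 1 ∨ st D q % 8 = 7 then 0 else 1)
  else (if jacobiSym (st D q) p = 1 then 0 else 1)

/-- the matrix `R` of the Kronecker symbols, with row sums zero -/
def R (D : ℤ) (p q : ℕ) : ZMod 2 :=
  if p = q then ∑ r ∈ D.natAbs.primeFactors.erase p, lg D r p else lg D q p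

/-- the sign of the prime discriminant, written additively -/
def sn (D : ℤ) (q : ℕ) : ZMod 2 := if st D q < 0 then 1 else 0

/-- the Kronecker symbol `(17 / p)`, written additively -/
def nu (p : ℕ) : ZMod 2 := if p = 2 then 0 else if jacobiSym 17 p = 1 then 0 else 1

/-- the criterion for the discriminant `D`: the symmetric matrix `[[N, R], [Rᵀ, A]]` over `F₂`,
without the row and the column of the first block which belong to `17`, has trivial kernel -/
def Cri (D : ℤ) : Prop := ∀ x y : ℕ → ZMod 2, ((17 : ℤ) ∣ D → x 17 = 0) →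
  (∀ p ∈ D.natAbs.primeFactors, p ≠ 17 →
    nu p * x p + ∑ q ∈ D.natAbs.primeFactors, R D p q * y q = 0) →
  (∀ q ∈ D.natAbs.primeFactors,
    ∑ p ∈ D.natAbs.primeFactors, R D p q * x p + sn D q * y q = 0) →
  ∀ p ∈ D.natAbs.primeFactors, x p = 0 ∧ y p = 0

/-- the criterion for the squarefree integer `d` -/
def Good (d : ℤ) : Prop := Cri (disc d)

/-- the squarefree integers `d`, `|d| ≤ X`, with the property `P` -/
noncomputable def num (P : ℤ → Prop) (X : ℕ) : ℕ :=
  ((Icc (-(X : ℤ)) X).filter fun d => Squarefree d ∧ P d).card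

/-- the squarefree integers `d`, `|disc d| ≤ X`, with the property `P` -/
noncomputable def numD (P : ℤ → Prop) (X : ℕ) : ℕ :=
  ((Icc (-(X : ℤ)) X).filter fun d => |disc d| ≤ X ∧ Squarefree d ∧ P d).card

/-- the constant `(1 - 1/2) (1 - 1/8) (1 - 1/32) ⋯` -/
noncomputable def c : ℝ := ∏' i : ℕ, (1 - (1 / 2 : ℝ) ^ (2 * i + 1))

theorem num_eq (P : ℤ → Prop) : num P = Pool.Agent.N919.BS.NS P := rfl

theorem core_disc (d : ℤ) (hd : Squarefree d) : Pool.Agent.N919.BS.core (disc d) = d := by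
  have h4 := Pool.Agent.H3.L17.mod_two hd
  unfold Pool.Agent.N919.BS.core disc
  split_ifs <;> omega

theorem numD_eq (P : ℤ → Prop) : numD P = Pool.Agent.N919.BS.NF P := by
  funext X
  unfold numD Pool.Agent.N919.BS.NF
  refine card_bij (fun d _ => disc d) ?_ ?_ ?_
  · intro d hd
    rw [mem_filter, mem_Icc] at hd ⊢
    obtain ⟨-, h1, h2, h3⟩ := hd
    rw [abs_le] at h1
    refine ⟨h1, ?_, by rw [core_disc d h2]; exact h3⟩
    have h4 := Pool.Agent.H3.L17.mod_two h2
    unfold Pool.Agent.N919.BS.Fund disc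
    by_cases c1 : d % 4 = 1
    · left
      rw [if_pos c1]
      exact ⟨h2, c1⟩
    · right
      rw [if_neg c1]
      exact ⟨d, rfl, h2, by omega⟩
  · intro d hd e he h
    rw [mem_filter] at hd he
    have := congrArg Pool.Agent.N919.BS.core h
    rwa [core_disc d hd.2.2.1, core_disc e he.2.2.1] at this
  · intro D hD
    rw [mem_filter, mem_Icc] at hD
    obtain ⟨h1, h2, h3⟩ := hD
    rcases h2 with ⟨h2, h4⟩ | ⟨m, h4, h2, h5⟩
    · have e : disc D = D := by
        unfold disc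
        rw [if_pos h4]
      refine ⟨D, ?_, e⟩
      rw [mem_filter, mem_Icc, e, abs_le]
      refine ⟨h1, h1, h2, ?_⟩
      rw [← core_disc D h2, e]
      exact h3
    · have e : disc m = D := by
        unfold disc
        rw [if_neg (by omega), h4]
      refine ⟨m, ?_, e⟩
      rw [mem_filter, mem_Icc, e, abs_le]
      refine ⟨by omega, h1, h2, ?_⟩
      rw [← core_disc m h2, e]
      exact h3

theorem num_congr {P Q : ℤ → Prop} (h : ∀ d, Squarefree d → (P d ↔ Q d)) : num P = num Q := by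
  funext X
  unfold num
  refine congrArg card (filter_congr fun d _ => ?_)
  constructor
  · rintro ⟨h1, h2⟩
    exact ⟨h1, (h d h1).1 h2⟩
  · rintro ⟨h1, h2⟩
    exact ⟨h1, (h d h1).2 h2⟩

theorem numD_congr {P Q : ℤ → Prop} (h : ∀ d, Squarefree d → (P d ↔ Q d)) : numD P = numD Q := by
  funext X
  unfold numD
  refine congrArg card (filter_congr fun d _ => ?_)
  constructor
  · rintro ⟨h0, h1, h2⟩
    exact ⟨h0, h1, (h d h1).1 h2⟩
  · rintro ⟨h0, h1, h2⟩
    exact ⟨h0, h1, (h d h1).2 h2⟩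

theorem good_iff {d : ℤ} (hd : Squarefree d) (hR : RootPlus d) :
    Pool.Agent.N916.MO.G17 d ↔ Good d := Pool.Agent.H3.L17.g17_cri hd hR

/-! ### Translation to the definitions of the imported files -/

section translation

variable {a b : ℤ} {F : ℂ → ℂ}

theorem P_eq (x : ℝ) : P a b x = Pool.Agent.W263.BSD.bsdProduct a b x := by
  unfold P Pool.Agent.W263.BSD.bsdProduct numPoints Pool.Agent.W263.BSD.pointCount
  refine Finset.prod_congr rfl fun p _ => ?_
  push_cast
  rfl

theorem PRiesz_eq (k x : ℝ) : PRiesz a b k x = Pool.Agent.H1.OB.PR a b k x := by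
  unfold PRiesz Pool.Agent.H1.OB.PR numPoints Pool.Agent.W263.BSD.pointCount
  refine Finset.prod_congr rfl fun p _ => ?_
  push_cast
  rfl

theorem numPoints_sub (p : ℕ) : (p : ℂ) + 1 - (numPoints a b p : ℂ) =
    (p : ℂ) - (Pool.Agent.W263.BSD.pointCount a b p : ℂ) := by
  unfold numPoints Pool.Agent.W263.BSD.pointCount
  push_cast
  ring

theorem rotTerm_eq (γ X : ℝ) (v : {p : ℕ // Pool.Agent.W263.BSD.GoodPrime a b p}) : rotTerm a b γ X v =
    -(Pool.Agent.X278.OP.lg (Pool.Agent.H1.OB.qq a b) (Pool.Agent.H1.OB.al a b) 1 v) *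
      Pool.Agent.X278.OP.Wt γ (Real.log ((Pool.Agent.H1.OB.qq a b v : ℕ) : ℝ) / X) := by
  have h := Pool.Agent.H1.OB.lg_al v
  have e : (numPoints a b v.1 : ℝ) = (Pool.Agent.W263.BSD.pointCount a b v.1 : ℝ) + 1 := by
    unfold numPoints Pool.Agent.W263.BSD.pointCount
    push_cast
    rfl
  have h2 : rotTerm a b γ X v =
      ((Real.log (((Pool.Agent.W263.BSD.pointCount a b v.1 : ℝ) + 1) / v.1) : ℝ) : ℂ) *
        Pool.Agent.X278.OP.Wt γ (Real.log (v.1 : ℝ) / X) := by
    unfold rotTerm Pool.Agent.X278.OP.Wt Pool.Agent.W189.ML.om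
    rw [Complex.ofReal_inv, ← div_eq_mul_inv, e]
  exact h2.trans (congrArg (· * Pool.Agent.X278.OP.Wt γ (Real.log (v.1 : ℝ) / X)) h.symm)

theorem PRot_eq (γ X : ℝ) : PRot a b γ X = Complex.exp
    (Pool.Agent.X278.OP.Sp (Pool.Agent.H1.OB.qq a b) (Pool.Agent.H1.OB.al a b) 1 γ X) := by
  unfold PRot Pool.Agent.X278.OP.Sp
  congr 1
  exact tsum_congr fun v => rotTerm_eq γ X v

theorem rotTerm_summable (γ : ℝ) {X : ℝ} (hX : 0 < X) : Summable fun p => ‖rotTerm a b γ X p‖ := by
  have h := Pool.Agent.X278.OP.Sp_summable (Pool.Agent.H1.OB.al_sys a b) (s₀ := 1)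
    (by norm_num) γ hX
  exact h.congr fun v => congrArg norm (rotTerm_eq γ X v).symm

theorem isLSeries_iff : IsLSeries a b F ↔ Pool.Agent.W263.BSD.IsLSeries a b F := by
  unfold IsLSeries Pool.Agent.W263.BSD.IsLSeries
  simp only [numPoints_sub]
  rfl

/-- **the laws, for order and rank zero** -/
theorem laws (H : Pool.Agent.H424.BX.Hy a b F) (h0 : F 1 ≠ 0) (hr : rank a b = 0) :
    (∀ ρ A : ℝ, A ≠ 0 → Tendsto (fun x : ℝ => P a b x / Real.log x ^ ρ) atTop (𝓝 A) →
      NoZeros F ∧ ρ = rank a b ∧ A = T F) ∧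
    (∀ ε : ℝ, 0 < ε → ∃ᶠ x : ℝ in atTop, T F - ε < P a b x / Real.log x ^ rank a b) ∧
    (∀ γ : ℝ, Real.pi / 2 < γ → (∀ X : ℝ, 0 < X → Summable fun p => ‖rotTerm a b γ X p‖) ∧
      Tendsto (fun X : ℝ => PRot a b γ X / (X : ℂ) ^ rank a b) atTop (𝓝 (((√2 : ℝ) : ℂ) / F 1))) ∧
    List.TFAE [
      NoZeros F,
      FewLarge a b ∧ AlmostAlways a b (rank a b) (T F),
      SometimesFewLarge a b ∧ ∃ ρ A : ℝ, 0 < A ∧ OnPositiveDensity a b ρ A,
      ∀ k : ℝ, 0 < k →
        Tendsto (fun x : ℝ => PRiesz a b k x / Real.log x ^ rank a b) atTop (𝓝 (T F)),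
      ∃ k ρ A : ℝ, 0 < k ∧ A ≠ 0 ∧
        Tendsto (fun x : ℝ => PRiesz a b k x / Real.log x ^ ρ) atTop (𝓝 A)] := by
  have hord := Pool.Agent.H1.OB.order_zero H h0
  have hT : T F = Pool.Agent.TH949.TX.TG F 0 := (Pool.Agent.H1.OB.tg_zero F).symm
  have hm : ∀ m : ℕ, analyticOrderAt F 1 = (m : ℕ∞) → m = 0 := by
    intro m h
    rw [hord] at h
    exact_mod_cast h.symm
  have hn : 0 < ‖F 1‖ := norm_pos_iff.2 h0
  have hTpos : 0 < T F := by
    unfold T
    positivity
  rw [hr]
  simp only [pow_zero, div_one, Nat.cast_zero, P_eq, PRiesz_eq, PRot_eq]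
  refine ⟨?_, ?_, ?_, ?_⟩
  · intro ρ A hA h
    obtain ⟨h1, m, h2, h3, h4⟩ := Pool.Agent.H1.OB.goldfeld_full H hA h
    have h5 := hm m h3
    subst h5
    exact ⟨h1, by rw [h2]; norm_num, by rw [h4, hT]⟩
  · intro ε hε
    exact Pool.Agent.H1.OB.upper_zero H h0 hε
  · intro γ hγ
    exact ⟨fun X hX => rotTerm_summable γ hX,
      Pool.Agent.H1.OB.rot_zero H.disc H.lser H.rs h0 hγ⟩
  · have fe : FewLarge a b = Pool.Agent.H424.BX.Sav a b := by
      unfold FewLarge Pool.Agent.H424.BX.Sav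
      simp only [P_eq]
      rfl
    have se : SometimesFewLarge a b = Pool.Agent.H424.BX.SavF a b := by
      unfold SometimesFewLarge Pool.Agent.H424.BX.SavF
      simp only [P_eq]
      rfl
    have ae : ∀ ρ A : ℝ, AlmostAlways a b ρ A = ∀ ε : ℝ, 0 < ε → Summable fun n : ℕ =>
        if ε < |Pool.Agent.W263.BSD.bsdProduct a b n / Real.log n ^ ρ - A| then (1 : ℝ) / n else 0 := by
      intro ρ A
      unfold AlmostAlways
      simp only [P_eq]
    have oe : ∀ ρ A : ℝ, OnPositiveDensity a b ρ A = ∀ ε : ℝ, 0 < ε → ∃ η : ℝ, 0 < η ∧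
        ∃ᶠ M : ℕ in atTop, η * Real.log M ≤ Pool.Agent.H424.BX.lsum
          {n : ℕ | |Pool.Agent.W263.BSD.bsdProduct a b n / Real.log n ^ ρ - A| ≤ ε} M := by
      intro ρ A
      unfold OnPositiveDensity
      simp only [P_eq]
      rfl
    have c0 := Pool.Agent.H424.BX.crit_const H 0 hTpos
    tfae_have 1 → 2 := by
      intro h
      have c1 := c0.out 0 1
      have h1 := c1.1 ⟨h, 0, by norm_num, hord, hT⟩
      rw [fe, ae]
      exact h1
    tfae_have 2 → 3 := by
      rintro ⟨h1, h2⟩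
      rw [fe] at h1
      rw [ae] at h2
      have c1 := c0.out 1 2
      have h3 := c1.1 ⟨h1, h2⟩
      rw [se]
      refine ⟨h3.1, 0, T F, hTpos, ?_⟩
      rw [oe]
      exact h3.2
    tfae_have 3 → 1 := by
      rintro ⟨h1, ρ, A, hA, h2⟩
      rw [se] at h1
      rw [oe] at h2
      have c1 := (Pool.Agent.H424.BX.crit_const H ρ hA).out 2 0
      exact (c1.1 ⟨h1, h2⟩).1
    tfae_have 1 → 4 := fun h k hk => Pool.Agent.H1.OB.riesz_forward H h0 h hk
    tfae_have 4 → 5 := by
      intro h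
      refine ⟨1, 0, T F, one_pos, hTpos.ne', ?_⟩
      simp only [Real.rpow_zero, div_one]
      exact h 1 one_pos
    tfae_have 5 → 1 := by
      rintro ⟨k, ρ, A, hk, hA, h⟩
      exact Pool.Agent.H1.OB.riesz_back H h0 hk hA h
    tfae_finish

theorem hy17 {d : ℤ} (hd : d ≠ 0) (hF : IsLSeries (-91 * d ^ 2) (-330 * d ^ 3) F) :
    Pool.Agent.H424.BX.Hy (-91 * d ^ 2) (-330 * d ^ 3) F := by
  have hF' := isLSeries_iff.1 hF
  refine ⟨?_, Pool.Agent.H1.OB.rs17 hd, Pool.Agent.H1.OB.growth17 hd hF',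
    Pool.Agent.H1.OB.growthF_twist Pool.Agent.H1.OB.disc17 Pool.Agent.H1.OB.hecke17
      Pool.Agent.H1.OB.belongs17 hd hF', hF'⟩
  have e : 4 * (-91 * d ^ 2) ^ 3 + 27 * (-330 * d ^ 3) ^ 2 =
      (4 * (-91 : ℤ) ^ 3 + 27 * (-330) ^ 2) * d ^ 6 := by ring
  rw [e]
  exact mul_ne_zero Pool.Agent.H1.OB.disc17 (pow_ne_zero 6 hd)

end translation

/-- **The product of Birch and Swinnerton-Dyer for one fifth of all quadratic twists of the curve
`y² = x³ - 91 x - 330` of conductor `17`.** -/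
theorem result :
    (∀ d : ℤ, Squarefree d → d ≠ 1 → RootPlus d → Good d → ∀ a b : ℤ, a = -91 * d ^ 2 →
      b = -330 * d ^ 3 → rank a b = 0 ∧ ∃ F : ℂ → ℂ, IsLSeries a b F ∧ F 1 ≠ 0 ∧
      -- the only possible exponent and constant
      (∀ ρ A : ℝ, A ≠ 0 → Tendsto (fun x : ℝ => P a b x / Real.log x ^ ρ) atTop (𝓝 A) →
        NoZeros F ∧ ρ = rank a b ∧ A = T F) ∧
      -- the upper limit
      (∀ ε : ℝ, 0 < ε → ∃ᶠ x : ℝ in atTop, T F - ε < P a b x / Real.log x ^ rank a b) ∧
      -- the asymptotic formula with rotated weights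
      (∀ γ : ℝ, Real.pi / 2 < γ → (∀ X : ℝ, 0 < X → Summable fun p => ‖rotTerm a b γ X p‖) ∧
        Tendsto (fun X : ℝ => PRot a b γ X / (X : ℂ) ^ rank a b) atTop (𝓝 (((√2 : ℝ) : ℂ) / F 1))) ∧
      -- the asymptotic formula outside small sets, and with the weights of Riesz
      List.TFAE [
        NoZeros F,
        FewLarge a b ∧ AlmostAlways a b (rank a b) (T F),
        SometimesFewLarge a b ∧ ∃ ρ A : ℝ, 0 < A ∧ OnPositiveDensity a b ρ A,
        ∀ k : ℝ, 0 < k →
          Tendsto (fun x : ℝ => PRiesz a b k x / Real.log x ^ rank a b) atTop (𝓝 (T F)),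
        ∃ k ρ A : ℝ, 0 < k ∧ A ≠ 0 ∧
          Tendsto (fun x : ℝ => PRiesz a b k x / Real.log x ^ ρ) atTop (𝓝 A)]) ∧
    (∀ d : ℤ, d ≠ 0 → (RootPlus (-d) ↔ ¬ RootPlus d)) ∧
    Tendsto (fun X : ℕ => (num (fun d => RootPlus d ∧ Good d) X : ℝ) /
      (num (fun _ => True) X : ℝ)) atTop (nhds (c / 2)) ∧
    Tendsto (fun X : ℕ => (num (fun d => RootPlus d ∧ Good d) X : ℝ) /
      (num RootPlus X : ℝ)) atTop (nhds c) ∧
    Tendsto (fun X : ℕ => (numD (fun d => RootPlus d ∧ Good d) X : ℝ) /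
      (numD (fun _ => True) X : ℝ)) atTop (nhds (c / 2)) ∧
    Tendsto (fun X : ℕ => (numD (fun d => RootPlus d ∧ Good d) X : ℝ) /
      (numD RootPlus X : ℝ)) atTop (nhds c) ∧
    0.4194 < c ∧ c < 0.4195 := by
  have key : ∀ d : ℤ, Squarefree d → ((Pool.Agent.N919.BS.Rt17 d ∧ Pool.Agent.N916.MO.G17 d) ↔
      (RootPlus d ∧ Good d)) := fun d hd =>
    ⟨fun h => ⟨h.1, (good_iff hd h.1).1 h.2⟩, fun h => ⟨h.1, (good_iff hd h.1).2 h.2⟩⟩
  have tS := Pool.Agent.N916.MO.dens17_sf
  have tD := Pool.Agent.N916.MO.dens17_fd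
  have tR := Pool.Agent.N969.Den.dens17_root
  rw [← num_eq, ← num_eq, num_congr key] at tS
  rw [← numD_eq, ← numD_eq, numD_congr key] at tD
  rw [← numD_eq, ← numD_eq, numD_congr key] at tR
  have half : Tendsto (fun X : ℕ => (num RootPlus X : ℝ) / (num (fun _ => True) X : ℝ)) atTop
      (nhds (1 / 2)) := by
    have h := Pool.Agent.N919.BS.t_NS Pool.Agent.N919.BS.root17 (G := fun _ => True) (c := 1) (by
      intro s k r _ _ _ ε hε
      refine ⟨0, fun Y _ => ?_⟩
      simp only [and_true, one_mul, sub_self, abs_zero]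
      positivity)
    simp only [and_true] at h
    exact h
  have top : Tendsto (fun X : ℕ => (num (fun _ => True) X : ℝ)) atTop atTop :=
    Pool.Agent.N969.Den.NS_top
  refine ⟨?_, ?_, tS, Pool.Agent.N969.Den.ratio2 tS half top, ?_, ?_, ?_, ?_⟩
  · intro d hd h1 hR hG a b ha hb
    obtain ⟨F, h2, h3, h4, h5⟩ := Pool.Agent.H3.L17.bsd hd h1 hR hG
    rw [ha, hb]
    have hr : rank (-91 * d ^ 2) (-330 * d ^ 3) = 0 := h5
    have hF : IsLSeries (-91 * d ^ 2) (-330 * d ^ 3) F := isLSeries_iff.2 ⟨h2, fun s hs => by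
      have h6 := h3 s hs
      convert h6 using 2
      rename_i p
      by_cases hp : Pool.Agent.W263.BSD.GoodPrime (-91 * d ^ 2) (-330 * d ^ 3) p
      · rw [if_pos hp]
        exact (if_pos hp).symm
      · rw [if_neg hp]
        exact (if_neg hp).symm⟩
    have h0 : F 1 ≠ 0 := (h2.analyticAt 1).analyticOrderAt_eq_zero.1 h4
    exact ⟨hr, F, hF, h0, laws (hy17 hd.ne_zero hF) h0 hr⟩
  · intro d hd
    have h := Pool.Agent.N919.BS.root17.one (-d) (neg_ne_zero.2 hd)
    rw [neg_neg] at h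
    exact h
  · exact tD
  · exact tR
  · exact Pool.Agent.Y948.CQ.t_C2.2.2.2.1
  · exact Pool.Agent.Y948.CQ.t_C2.2.2.2.2

end Pool.Agent.Results.MP_3283e1_nt.TwistsConductor17
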